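import Pool.Agent.Helper54.SP.StmtsW
import Pool.Agent.Helper54.SP.StmtsP

set_option autoImplicit false

/-! # Module WC: values of the wires from a solution of the inequalities -/

namespace Pool.Agent.Helper54.SP

noncomputable section

/-- the wires of a term -/
def wc_T (α β b : ℝ) (r : ℕ) : ℝ :=
  if r = 0 then b else if r = 1 then b / (1 - β) else if r = 2 then 1 + (b - 1) * (1 + α)
  else if r = 3 then (1 + (b - 1) * (1 + α)) / (1 - β) else 1 + (1 + α) * (b / (1 - β) - 1)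

/-- the quotient of the last two wires of a term -/
def wc_S (α β b : ℝ) : ℝ := 1 + α * β / (1 + (b - 1) * (1 + α))

/-- the wires of the sums -/
def wc_P (S : ℕ → ℝ) (b b5 : ℝ) (r : ℕ) : ℝ :=
  if r = 0 then b else if r = 1 then b * S 0 else if r = 2 then b * (S 0 * S 1)
  else if r = 3 then b * (S 0 * S 1 * S 2) else if r = 4 then b * (S 3 * S 4)
  else if r = 5 then b5 else if r = 6 then b5 * S 3 else b5 * (S 3 * S 4)

/-- the facts on the wires of a term -/
def wc_TF (α β b η : ℝ) : Prop :=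
    b < b / (1 - β) ∧ b / (1 - β) < 1 + (b - 1) * (1 + α) ∧
    1 + (b - 1) * (1 + α) < (1 + (b - 1) * (1 + α)) / (1 - β) ∧
    (1 + (b - 1) * (1 + α)) / (1 - β) < 1 + (1 + α) * (b / (1 - β) - 1) ∧
    1 + (1 + α) * (b / (1 - β) - 1) < b + η ∧
    1 + (1 + α) * (b / (1 - β) - 1) = (1 + (b - 1) * (1 + α)) / (1 - β) * wc_S α β b ∧
    1 < wc_S α β b ∧ wc_S α β b ≤ 1 + η / 1000000 ∧
    1000 * (b / (1 - β) - b) < 1 + (b - 1) * (1 + α) - b ∧
    1000 * (1 + (1 + α) * (b / (1 - β) - 1) - (1 + (b - 1) * (1 + α)) / (1 - β)) < η ∧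
    1000 * (1 + (b - 1) * (1 + α) - b) < η ∧ 1000 * (b / (1 - β) - b) < η

/-- elementary facts on the wires of a term -/
theorem wc_term {α β b η : ℝ} (hη : 0 < η) (hη1 : η ≤ 1 / 100) (hb : 2 < b) (hb1 : b < 2 + 1 / 100)
    (hα : 0 < α) (hα1 : α ≤ η / 10000) (hβ : 0 < β) (hβ1 : β ≤ α / 10000) : wc_TF α β b η := by
  have hβ2 : β ≤ 1 / 100000000 := by linarith
  have hβ3 : 0 < 1 - β := by linarith
  have hinv : 1 / (1 - β) ≤ 1 + 2 * β := by
    rw [div_le_iff₀ hβ3]
    nlinarith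
  have e1 : b / (1 - β) = b * (1 / (1 - β)) := by ring
  have e2 : b / (1 - β) - b = b * β / (1 - β) := by field_simp; ring
  have hβi : β / (1 - β) ≤ 101 / 100 * β := by
    rw [div_le_iff₀ hβ3]
    nlinarith
  have hβip : 0 < β / (1 - β) := by positivity
  have d1 : b / (1 - β) - b ≤ 21 / 10 * β := by
    have : b * β / (1 - β) = b * (β / (1 - β)) := by ring
    rw [e2, this]
    nlinarith
  have d1p : 0 < b / (1 - β) - b := by
    rw [e2]
    positivity
  set ω := 1 + (b - 1) * (1 + α) with hω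
  have hω1 : b < ω := by nlinarith
  have hω0 : 0 < ω := by linarith
  have hωα : ω - b = (b - 1) * α := by rw [hω]; ring
  have hωb : ω - b ≤ 102 / 100 * α := by rw [hωα]; nlinarith
  have hωb2 : α < ω - b := by rw [hωα]; nlinarith
  have hω3 : ω < 3 := by linarith
  have e3 : ω / (1 - β) - ω = ω * (β / (1 - β)) := by field_simp; ring
  have d3 : ω / (1 - β) - ω ≤ 31 / 10 * β := by
    rw [e3]
    nlinarith
  have d3p : 0 < ω / (1 - β) - ω := by
    rw [e3]
    positivity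
  have e4 : 1 + (1 + α) * (b / (1 - β) - 1) - ω / (1 - β) = α * (β / (1 - β)) := by
    rw [hω]
    field_simp
    ring
  have d4 : α * (β / (1 - β)) ≤ β := by nlinarith
  have d4p : 0 < α * (β / (1 - β)) := by positivity
  have hS : wc_S α β b = 1 + α * β / ω := rfl
  have hαβ : 0 < α * β := mul_pos hα hβ
  refine ⟨by linarith, by linarith, by linarith, by linarith, by linarith, ?_, ?_, ?_, ?_, ?_, ?_,
    ?_⟩
  · rw [hS]
    have : ω / (1 - β) * (1 + α * β / ω) = ω / (1 - β) + α * (β / (1 - β)) := by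
      field_simp
    rw [this]
    linarith
  · rw [hS]
    have : 0 < α * β / ω := by positivity
    linarith
  · rw [hS]
    have : α * β / ω ≤ η / 1000000 := by
      rw [div_le_iff₀ hω0]
      have h1 : α * β ≤ α * (1 / 100000000) := by gcongr
      nlinarith
    linarith
  · linarith
  · rw [e4]
    linarith
  · linarith
  · linarith

/-- the facts on the wires of the sums -/
def wc_SF (S : ℕ → ℝ) (b b5 η : ℝ) : Prop :=
    b < b * S 0 ∧ b * S 0 < b * (S 0 * S 1) ∧ b * (S 0 * S 1) < b * (S 0 * S 1 * S 2) ∧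
    b * (S 0 * S 1 * S 2) < b * (S 3 * S 4) ∧ b * (S 3 * S 4) < b + η ∧
    b5 < b5 * S 3 ∧ b5 * S 3 < b5 * (S 3 * S 4) ∧ b5 * (S 3 * S 4) < b5 + η ∧
    1000 * (b5 * (S 3 * S 4) - b5) < η

/-- elementary facts on the wires of the sums -/
theorem wc_sum {S : ℕ → ℝ} {b b5 η : ℝ} (hη : 0 < η) (hη1 : η ≤ 1 / 100) (hb : 2 < b)
    (hb1 : b < 2 + 1 / 100) (hc : 2 < b5) (hc1 : b5 < 2 + 1 / 100)
    (hS : ∀ i, i < 5 → 1 < S i ∧ S i ≤ 1 + η / 1000000) (h : S 0 * S 1 * S 2 < S 3 * S 4) :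
    wc_SF S b b5 η := by
  obtain ⟨s0, -⟩ := hS 0 (by norm_num)
  obtain ⟨s1, -⟩ := hS 1 (by norm_num)
  obtain ⟨s2, -⟩ := hS 2 (by norm_num)
  obtain ⟨s3, t3⟩ := hS 3 (by norm_num)
  obtain ⟨s4, t4⟩ := hS 4 (by norm_num)
  have h34 : S 3 * S 4 ≤ 1 + η / 100000 := by
    have h1 : S 3 * S 4 ≤ (1 + η / 1000000) * (1 + η / 1000000) := by gcongr
    nlinarith
  have h34' : 1 < S 3 * S 4 := by nlinarith
  have h01 : 1 < S 0 * S 1 := by nlinarith
  have hb34 : b * (S 3 * S 4) ≤ b * (1 + η / 100000) := by gcongr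
  have hc34 : b5 * (S 3 * S 4) ≤ b5 * (1 + η / 100000) := by gcongr
  refine ⟨?_, ?_, ?_, ?_, ?_, ?_, ?_, ?_, ?_⟩
  · nlinarith
  · have : S 0 < S 0 * S 1 := by nlinarith
    gcongr
  · have : S 0 * S 1 < S 0 * S 1 * S 2 := by nlinarith
    gcongr
  · gcongr
  · nlinarith
  · nlinarith
  · have : S 3 < S 3 * S 4 := by nlinarith
    gcongr
  · nlinarith
  · nlinarith

/-- the values of all wires -/
def wc_v (K L : ℕ) (Q : List (List (ℕ × ℕ))) (al be B : ℕ → ℝ) (z : ℕ) : ℝ :=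
  if z < 2 * K then (if z % 2 = 0 then B z else 1 + (B (z - 1) - 1) * (1 + al (z / 2)))
  else if z < 4 * K then (if z % 2 = 0 then B z else B (z - 1) / (1 - be ((z - 2 * K) / 2)))
  else if z < 4 * K + 15 * L then
    wc_T (al (ks (Q.getD ((z - 4 * K) / 15) []) ((z - 4 * K) / 5 % 3)))
      (be (js (Q.getD ((z - 4 * K) / 15) []) ((z - 4 * K) / 5 % 3)))
      (B (z - (z - 4 * K) % 5)) ((z - 4 * K) % 5)
  else if z < 4 * K + 25 * L then
    wc_T (al (ks (Q.getD ((z - (4 * K + 15 * L)) / 10) []) (3 + (z - (4 * K + 15 * L)) / 5 % 2)))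
      (be (js (Q.getD ((z - (4 * K + 15 * L)) / 10) []) (3 + (z - (4 * K + 15 * L)) / 5 % 2)))
      (B (z - (z - (4 * K + 15 * L)) % 5)) ((z - (4 * K + 15 * L)) % 5)
  else
    wc_P (fun i => wc_S (al (ks (Q.getD ((z - (4 * K + 25 * L)) / 8) []) i))
        (be (js (Q.getD ((z - (4 * K + 25 * L)) / 8) []) i))
        (B (tbs K L ((z - (4 * K + 25 * L)) / 8) i)))
      (B (z - (z - (4 * K + 25 * L)) % 8)) (B (z - (z - (4 * K + 25 * L)) % 8 + 5))
      ((z - (4 * K + 25 * L)) % 8)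

section
variable (K L : ℕ) (Q : List (List (ℕ × ℕ))) (al be B : ℕ → ℝ)

theorem wc_v0 {k : ℕ} (hk : k < K) : wc_v K L Q al be B (2 * k) = B (2 * k) := by
  unfold wc_v
  rw [if_pos (by omega), if_pos (by omega)]

theorem wc_v1 {k : ℕ} (hk : k < K) :
    wc_v K L Q al be B (2 * k + 1) = 1 + (B (2 * k) - 1) * (1 + al k) := by
  unfold wc_v
  rw [if_pos (by omega), if_neg (by omega)]
  have e1 : 2 * k + 1 - 1 = 2 * k := by omega
  have e2 : (2 * k + 1) / 2 = k := by omega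
  rw [e1, e2]

theorem wc_v2 {k : ℕ} (hk : k < K) :
    wc_v K L Q al be B (2 * K + 2 * k) = B (2 * K + 2 * k) := by
  unfold wc_v
  rw [if_neg (by omega), if_pos (by omega), if_pos (by omega)]

theorem wc_v3 {k : ℕ} (hk : k < K) :
    wc_v K L Q al be B (2 * K + 2 * k + 1) = B (2 * K + 2 * k) / (1 - be k) := by
  unfold wc_v
  rw [if_neg (by omega), if_pos (by omega), if_neg (by omega)]
  have e1 : 2 * K + 2 * k + 1 - 1 = 2 * K + 2 * k := by omega
  have e2 : (2 * K + 2 * k + 1 - 2 * K) / 2 = k := by omega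
  rw [e1, e2]

theorem wc_vt {l i r : ℕ} (hl : l < L) (hi : i < 5) (hr : r < 5) :
    wc_v K L Q al be B (tbs K L l i + r) =
      wc_T (al (ks (Q.getD l []) i)) (be (js (Q.getD l []) i)) (B (tbs K L l i)) r := by
  unfold wc_v tbs
  by_cases h3 : i < 3
  · simp only [if_pos h3]
    rw [if_neg (by omega), if_neg (by omega), if_pos (by omega)]
    have e1 : (4 * K + 5 * (3 * l + i) + r - 4 * K) / 15 = l := by omega
    have e2 : (4 * K + 5 * (3 * l + i) + r - 4 * K) / 5 % 3 = i := by omega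
    have e3 : (4 * K + 5 * (3 * l + i) + r - 4 * K) % 5 = r := by omega
    have e4 : 4 * K + 5 * (3 * l + i) + r - r = 4 * K + 5 * (3 * l + i) := by omega
    rw [e1, e2, e3, e4]
  · simp only [if_neg h3]
    rw [if_neg (by omega), if_neg (by omega), if_neg (by omega), if_pos (by omega)]
    have e1 : (4 * K + 15 * L + 5 * (2 * l + (i - 3)) + r - (4 * K + 15 * L)) / 10 = l := by omega
    have e2 : 3 + (4 * K + 15 * L + 5 * (2 * l + (i - 3)) + r - (4 * K + 15 * L)) / 5 % 2 = i := by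
      omega
    have e3 : (4 * K + 15 * L + 5 * (2 * l + (i - 3)) + r - (4 * K + 15 * L)) % 5 = r := by omega
    have e4 : 4 * K + 15 * L + 5 * (2 * l + (i - 3)) + r - r =
      4 * K + 15 * L + 5 * (2 * l + (i - 3)) := by omega
    rw [e1, e2, e3, e4]

theorem wc_vp {l r : ℕ} (hr : r < 8) :
    wc_v K L Q al be B (pbs K L l + r) =
      wc_P (fun i => wc_S (al (ks (Q.getD l []) i)) (be (js (Q.getD l []) i)) (B (tbs K L l i)))
        (B (pbs K L l)) (B (pbs K L l + 5)) r := by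
  unfold wc_v pbs
  rw [if_neg (by omega), if_neg (by omega), if_neg (by omega), if_neg (by omega)]
  have e1 : (4 * K + 25 * L + 8 * l + r - (4 * K + 25 * L)) / 8 = l := by omega
  have e3 : (4 * K + 25 * L + 8 * l + r - (4 * K + 25 * L)) % 8 = r := by omega
  have e4 : 4 * K + 25 * L + 8 * l + r - r = 4 * K + 25 * L + 8 * l := by omega
  rw [e1, e3, e4]

end

/-- the wires -/
theorem wc_class {K L z : ℕ} (hz : z < 4 * K + 33 * L) :
    (∃ k, k < K ∧ (z = 2 * k ∨ z = 2 * k + 1)) ∨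
    (∃ k, k < K ∧ (z = 2 * K + 2 * k ∨ z = 2 * K + 2 * k + 1)) ∨
    (∃ l i r, l < L ∧ i < 5 ∧ r < 5 ∧ z = tbs K L l i + r) ∨
    (∃ l r, l < L ∧ r < 8 ∧ z = pbs K L l + r) := by
  by_cases h1 : z < 2 * K
  · exact Or.inl ⟨z / 2, by omega, by omega⟩
  by_cases h2 : z < 4 * K
  · exact Or.inr (Or.inl ⟨(z - 2 * K) / 2, by omega, by omega⟩)
  by_cases h3 : z < 4 * K + 15 * L
  · refine Or.inr (Or.inr (Or.inl ⟨(z - 4 * K) / 15, (z - 4 * K) / 5 % 3, (z - 4 * K) % 5,
      by omega, by omega, by omega, ?_⟩))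
    unfold tbs
    rw [if_pos (by omega)]
    omega
  by_cases h4 : z < 4 * K + 25 * L
  · refine Or.inr (Or.inr (Or.inl ⟨(z - (4 * K + 15 * L)) / 10,
      3 + (z - (4 * K + 15 * L)) / 5 % 2, (z - (4 * K + 15 * L)) % 5,
      by omega, by omega, by omega, ?_⟩))
    unfold tbs
    rw [if_neg (by omega)]
    omega
  · refine Or.inr (Or.inr (Or.inr ⟨(z - (4 * K + 25 * L)) / 8, (z - (4 * K + 25 * L)) % 8,
      by omega, by omega, ?_⟩))
    unfold pbs
    omega

/-- the assumptions on the parameters -/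
structure wc_H (K L : ℕ) (Q : List (List (ℕ × ℕ))) (al be B : ℕ → ℝ) (η : ℝ) : Prop where
  h0 : 0 < η
  h1 : η ≤ 1 / 100
  hB : ∀ z, z < 4 * K + 33 * L → 2 < B z ∧ B z + η < 2 + 1 / 100
  st : ∀ z z', z < z' → B z + 2 * η ≤ B z'
  ha : ∀ k, k < K → 0 < al k ∧ al k ≤ η / 10000
  hb : ∀ j k, j < K → k < K → 0 < be j ∧ be j ≤ al k / 10000
  hQ : ∀ l i, l < L → i < 5 → ks (Q.getD l []) i < K ∧ js (Q.getD l []) i < K
  hS : ∀ l, l < L →
    wc_S (al (ks (Q.getD l []) 0)) (be (js (Q.getD l []) 0)) (B (tbs K L l 0)) *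
      wc_S (al (ks (Q.getD l []) 1)) (be (js (Q.getD l []) 1)) (B (tbs K L l 1)) *
      wc_S (al (ks (Q.getD l []) 2)) (be (js (Q.getD l []) 2)) (B (tbs K L l 2)) <
    wc_S (al (ks (Q.getD l []) 3)) (be (js (Q.getD l []) 3)) (B (tbs K L l 3)) *
      wc_S (al (ks (Q.getD l []) 4)) (be (js (Q.getD l []) 4)) (B (tbs K L l 4))

theorem wc_tbs {K L l i : ℕ} (hl : l < L) (hi : i < 5) :
    4 * K ≤ tbs K L l i ∧ tbs K L l i + 5 ≤ 4 * K + 25 * L := by
  unfold tbs
  split_ifs with h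
  · omega
  · omega

section
variable {K L : ℕ} {Q : List (List (ℕ × ℕ))} {al be B : ℕ → ℝ} {η : ℝ}

theorem wc_mono (H : wc_H K L Q al be B η) {z z' : ℕ} (h : z ≤ z') : B z ≤ B z' := by
  rcases h.eq_or_lt with rfl | h
  · exact le_rfl
  · have := H.st z z' h
    linarith [H.h0]

/-- the term facts -/
theorem wc_tf (H : wc_H K L Q al be B η) {l i j z : ℕ} (hl : l < L) (hi : i < 5) (hj : j < 5)
    (hz : z < 4 * K + 33 * L) :
    wc_TF (al (ks (Q.getD l []) i)) (be (js (Q.getD l []) j)) (B z) η :=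
  wc_term H.h0 H.h1 (H.hB z hz).1 (by linarith [(H.hB z hz).2, H.h0] : B z < 2 + 1 / 100)
    (H.ha _ (H.hQ l i hl hi).1).1 (H.ha _ (H.hQ l i hl hi).1).2
    (H.hb _ _ (H.hQ l j hl hj).2 (H.hQ l i hl hi).1).1
    (H.hb _ _ (H.hQ l j hl hj).2 (H.hQ l i hl hi).1).2

/-- the master facts -/
theorem wc_mf (H : wc_H K L Q al be B η) {j k z : ℕ} (hj : j < K) (hk : k < K)
    (hz : z < 4 * K + 33 * L) : wc_TF (al k) (be j) (B z) η :=
  wc_term H.h0 H.h1 (H.hB z hz).1 (by linarith [(H.hB z hz).2, H.h0] : B z < 2 + 1 / 100)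
    (H.ha _ hk).1 (H.ha _ hk).2 (H.hb _ _ hj hk).1 (H.hb _ _ hj hk).2

/-- the sum facts -/
theorem wc_sf (H : wc_H K L Q al be B η) {l z z' : ℕ} (hl : l < L) (hz : z < 4 * K + 33 * L)
    (hz' : z' < 4 * K + 33 * L) :
    wc_SF (fun i => wc_S (al (ks (Q.getD l []) i)) (be (js (Q.getD l []) i))
      (B (tbs K L l i))) (B z) (B z') η :=
  wc_sum (S := fun i => wc_S (al (ks (Q.getD l []) i)) (be (js (Q.getD l []) i))
    (B (tbs K L l i))) H.h0 H.h1 (H.hB z hz).1
    (by linarith [(H.hB z hz).2, H.h0] : B z < 2 + 1 / 100) (H.hB z' hz').1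
    (by linarith [(H.hB z' hz').2, H.h0] : B z' < 2 + 1 / 100) (fun i hi => by
      have h1 := wc_tbs (K := K) hl hi
      obtain ⟨-, -, -, -, -, -, h2, h3, -⟩ := wc_tf H hl hi hi (z := tbs K L l i) (by omega)
      exact ⟨h2, h3⟩) (H.hS l hl)

/-- bounds for the wires -/
theorem wc_bd (H : wc_H K L Q al be B η) {z : ℕ} (hz : z < 4 * K + 33 * L) :
    2 < wc_v K L Q al be B z ∧ wc_v K L Q al be B z < B z + η := by
  have h0 := H.h0
  have hBz := H.hB z hz
  rcases wc_class hz with ⟨k, hk, rfl | rfl⟩ | ⟨k, hk, rfl | rfl⟩ | ⟨l, i, r, hl, hi, hr, rfl⟩ |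
    ⟨l, r, hl, hr, rfl⟩
  · rw [wc_v0 K L Q al be B hk]
    exact ⟨hBz.1, by linarith⟩
  · rw [wc_v1 K L Q al be B hk]
    have hb := H.hB (2 * k) (by omega)
    obtain ⟨f1, f2, f3, f4, f5, -⟩ := wc_mf H hk hk (z := 2 * k) (by omega)
    have := H.st (2 * k) (2 * k + 1) (by omega)
    constructor <;> linarith
  · rw [wc_v2 K L Q al be B hk]
    exact ⟨hBz.1, by linarith⟩
  · rw [wc_v3 K L Q al be B hk]
    have hb := H.hB (2 * K + 2 * k) (by omega)
    obtain ⟨f1, f2, f3, f4, f5, -⟩ := wc_mf H hk hk (z := 2 * K + 2 * k) (by omega)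
    have := H.st (2 * K + 2 * k) (2 * K + 2 * k + 1) (by omega)
    constructor <;> linarith
  · rw [wc_vt K L Q al be B hl hi hr]
    have h1 := wc_tbs (K := K) hl hi
    have hb := H.hB (tbs K L l i) (by omega)
    obtain ⟨f1, f2, f3, f4, f5, -⟩ := wc_tf H hl hi hi (z := tbs K L l i) (by omega)
    have := wc_mono H (z := tbs K L l i) (z' := tbs K L l i + r) (by omega)
    unfold wc_T
    split_ifs <;> constructor <;> linarith
  · rw [wc_vp K L Q al be B hr]
    have hlt : pbs K L l + 7 < 4 * K + 33 * L := by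
      unfold pbs
      omega
    have hb := H.hB (pbs K L l) (by omega)
    have hb5 := H.hB (pbs K L l + 5) (by omega)
    obtain ⟨f1, f2, f3, f4, f5, f6, f7, f8, -⟩ :=
      wc_sf H (z := pbs K L l) (z' := pbs K L l + 5) hl (by omega) (by omega)
    have m0 := wc_mono H (z := pbs K L l) (z' := pbs K L l + r) (by omega)
    unfold wc_P
    split_ifs with g0 g1 g2 g3 g4 g5 g6
    · constructor <;> linarith
    · constructor <;> linarith
    · constructor <;> linarith
    · constructor <;> linarith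
    · constructor <;> linarith
    · have m5 := wc_mono H (z := pbs K L l + 5) (z' := pbs K L l + r) (by omega)
      constructor <;> linarith
    · have m5 := wc_mono H (z := pbs K L l + 5) (z' := pbs K L l + r) (by omega)
      constructor <;> linarith
    · have m5 := wc_mono H (z := pbs K L l + 5) (z' := pbs K L l + r) (by omega)
      constructor <;> linarith

/-- the wires increase -/
theorem wc_lt (H : wc_H K L Q al be B η) {z : ℕ} (hz : z + 1 < 4 * K + 33 * L) :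
    wc_v K L Q al be B z < wc_v K L Q al be B (z + 1) := by
  have h0 := H.h0
  have hu := (wc_bd H (z := z) (by omega)).2
  have hst := H.st z (z + 1) (by omega)
  have key : wc_v K L Q al be B (z + 1) = B (z + 1) →
      wc_v K L Q al be B z < wc_v K L Q al be B (z + 1) := by
    intro h
    rw [h]
    linarith
  rcases wc_class hz with ⟨k, hk, h | h⟩ | ⟨k, hk, h | h⟩ | ⟨l, i, r, hl, hi, hr, h⟩ |
    ⟨l, r, hl, hr, h⟩
  · refine key ?_
    rw [h, wc_v0 K L Q al be B hk]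
  · have e : z = 2 * k := by omega
    rw [h, e, wc_v0 K L Q al be B hk, wc_v1 K L Q al be B hk]
    obtain ⟨f1, f2, -⟩ := wc_mf H hk hk (z := 2 * k) (by omega)
    linarith
  · refine key ?_
    rw [h, wc_v2 K L Q al be B hk]
  · have e : z = 2 * K + 2 * k := by omega
    rw [h, e, wc_v2 K L Q al be B hk, wc_v3 K L Q al be B hk]
    exact (wc_mf H hk hk (z := 2 * K + 2 * k) (by omega)).1
  · have h1 := wc_tbs (K := K) hl hi
    obtain ⟨f1, f2, f3, f4, -⟩ := wc_tf H hl hi hi (z := tbs K L l i) (by omega)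
    rcases Nat.eq_zero_or_pos r with rfl | hr0
    · refine key ?_
      rw [h, wc_vt K L Q al be B hl hi hr]
      simp [wc_T]
    · obtain ⟨s, rfl⟩ : ∃ s, r = s + 1 := ⟨r - 1, by omega⟩
      have e : z = tbs K L l i + s := by omega
      rw [h, e, wc_vt K L Q al be B hl hi hr, wc_vt K L Q al be B hl hi (by omega : s < 5)]
      have hs : s = 0 ∨ s = 1 ∨ s = 2 ∨ s = 3 := by omega
      rcases hs with rfl | rfl | rfl | rfl
      · simpa [wc_T] using f1
      · simpa [wc_T] using f2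
      · simpa [wc_T] using f3
      · simpa [wc_T] using f4
  · have hlt : pbs K L l + 7 < 4 * K + 33 * L := by
      unfold pbs
      omega
    obtain ⟨f1, f2, f3, f4, f5, f6, f7, f8, -⟩ :=
      wc_sf H (z := pbs K L l) (z' := pbs K L l + 5) hl (by omega) (by omega)
    rcases Nat.eq_zero_or_pos r with rfl | hr0
    · refine key ?_
      rw [h, wc_vp K L Q al be B hr]
      simp [wc_P]
    · obtain ⟨s, rfl⟩ : ∃ s, r = s + 1 := ⟨r - 1, by omega⟩
      have e : z = pbs K L l + s := by omega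
      have hs : s = 4 ∨ s = 0 ∨ s = 1 ∨ s = 2 ∨ s = 3 ∨ s = 5 ∨ s = 6 := by omega
      rcases hs with rfl | hs
      · refine key ?_
        rw [h, wc_vp K L Q al be B hr]
        simp [wc_P]
      · rw [h, e, wc_vp K L Q al be B hr, wc_vp K L Q al be B (by omega : s < 8)]
        rcases hs with rfl | rfl | rfl | rfl | rfl | rfl
        · simpa [wc_P] using f1
        · simpa [wc_P] using f2
        · simpa [wc_P] using f3
        · simpa [wc_P] using f4
        · simpa [wc_P] using f6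
        · simpa [wc_P] using f7

theorem wc_lt' (H : wc_H K L Q al be B η) {z z' : ℕ} (h : z < z') (hz : z' < 4 * K + 33 * L) :
    wc_v K L Q al be B z < wc_v K L Q al be B z' := by
  induction z', h using Nat.le_induction with
  | base => exact wc_lt H hz
  | succ n hn ih => exact (ih (by omega)).trans (wc_lt H hz)

/-- values of the term wires -/
theorem wc_tv (K L : ℕ) (Q : List (List (ℕ × ℕ))) (al be B : ℕ → ℝ) {l i : ℕ} (hl : l < L)
    (hi : i < 5) :
    wc_v K L Q al be B (tbs K L l i) = B (tbs K L l i) ∧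
    wc_v K L Q al be B (tbs K L l i + 1) =
      B (tbs K L l i) / (1 - be (js (Q.getD l []) i)) ∧
    wc_v K L Q al be B (tbs K L l i + 2) =
      1 + (B (tbs K L l i) - 1) * (1 + al (ks (Q.getD l []) i)) ∧
    wc_v K L Q al be B (tbs K L l i + 3) =
      (1 + (B (tbs K L l i) - 1) * (1 + al (ks (Q.getD l []) i))) /
        (1 - be (js (Q.getD l []) i)) ∧
    wc_v K L Q al be B (tbs K L l i + 4) =
      1 + (1 + al (ks (Q.getD l []) i)) * (B (tbs K L l i) / (1 - be (js (Q.getD l []) i)) - 1) := by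
  have h0 := wc_vt K L Q al be B hl hi (r := 0) (by norm_num)
  have h1 := wc_vt K L Q al be B hl hi (r := 1) (by norm_num)
  have h2 := wc_vt K L Q al be B hl hi (r := 2) (by norm_num)
  have h3 := wc_vt K L Q al be B hl hi (r := 3) (by norm_num)
  have h4 := wc_vt K L Q al be B hl hi (r := 4) (by norm_num)
  rw [add_zero] at h0
  rw [h0, h1, h2, h3, h4]
  simp [wc_T]

/-- values of the sum wires -/
theorem wc_pv (K L : ℕ) (Q : List (List (ℕ × ℕ))) (al be B : ℕ → ℝ) (l : ℕ) (S : ℕ → ℝ)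
    (hS : S = fun i => wc_S (al (ks (Q.getD l []) i)) (be (js (Q.getD l []) i))
      (B (tbs K L l i))) :
    wc_v K L Q al be B (pbs K L l) = B (pbs K L l) ∧
    wc_v K L Q al be B (pbs K L l + 1) = B (pbs K L l) * S 0 ∧
    wc_v K L Q al be B (pbs K L l + 2) = B (pbs K L l) * (S 0 * S 1) ∧
    wc_v K L Q al be B (pbs K L l + 3) = B (pbs K L l) * (S 0 * S 1 * S 2) ∧
    wc_v K L Q al be B (pbs K L l + 4) = B (pbs K L l) * (S 3 * S 4) ∧
    wc_v K L Q al be B (pbs K L l + 5) = B (pbs K L l + 5) ∧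
    wc_v K L Q al be B (pbs K L l + 6) = B (pbs K L l + 5) * S 3 ∧
    wc_v K L Q al be B (pbs K L l + 7) = B (pbs K L l + 5) * (S 3 * S 4) := by
  have h0 := wc_vp K L Q al be B (l := l) (r := 0) (by norm_num)
  have h1 := wc_vp K L Q al be B (l := l) (r := 1) (by norm_num)
  have h2 := wc_vp K L Q al be B (l := l) (r := 2) (by norm_num)
  have h3 := wc_vp K L Q al be B (l := l) (r := 3) (by norm_num)
  have h4 := wc_vp K L Q al be B (l := l) (r := 4) (by norm_num)
  have h5 := wc_vp K L Q al be B (l := l) (r := 5) (by norm_num)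
  have h6 := wc_vp K L Q al be B (l := l) (r := 6) (by norm_num)
  have h7 := wc_vp K L Q al be B (l := l) (r := 7) (by norm_num)
  rw [add_zero, ← hS] at h0
  rw [← hS] at h1 h2 h3 h4 h5 h6 h7
  rw [h0, h1, h2, h3, h4, h5, h6, h7]
  simp [wc_P]

/-- the claim for one gate -/
def wc_G (g : Gt) (v : ℕ → ℝ) : Prop :=
  (v g.a' - cen g.k) * (v g.u - cen g.k) = (v g.a - cen g.k) * (v g.u' - cen g.k) ∧
  1000 * (v g.u' - v g.u) < |v g.a - v g.u|

theorem wc_gH (H : wc_H K L Q al be B η) {l i : ℕ} (hl : l < L) (hi : i < 5) :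
    wc_G (gH K L (Q.getD l []) l i) (wc_v K L Q al be B) := by
  obtain ⟨v0, v1, v2, v3, v4⟩ := wc_tv K L Q al be B hl hi
  have ht := wc_tbs (K := K) hl hi
  obtain ⟨hk, hj⟩ := H.hQ l i hl hi
  have m0 := wc_v0 K L Q al be B hk
  have m1 := wc_v1 K L Q al be B hk
  constructor
  · simp only [gH, Gt.k, Gt.u, Gt.u', Gt.a, Gt.a', cen]
    rw [v0, v2, m0, m1]
    simp only [if_true]
    ring
  · simp only [gH, Gt.u, Gt.u', Gt.a]
    rw [v0, m0, m1]
    obtain ⟨-, -, -, -, -, -, -, -, -, -, f, -⟩ := wc_mf H hk hk (z := 2 * ks (Q.getD l []) i)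
      (by omega)
    have := H.st (2 * ks (Q.getD l []) i) (tbs K L l i) (by omega)
    have h0 := H.h0
    have h5 := le_abs_self (B (tbs K L l i) - B (2 * ks (Q.getD l []) i))
    linarith

theorem wc_gG3 (H : wc_H K L Q al be B η) {l i : ℕ} (hl : l < L) (hi : i < 5) :
    wc_G (gG3 K L l i) (wc_v K L Q al be B) := by
  obtain ⟨v0, v1, v2, v3, v4⟩ := wc_tv K L Q al be B hl hi
  have ht := wc_tbs (K := K) hl hi
  constructor
  · simp only [gG3, Gt.k, Gt.u, Gt.u', Gt.a, Gt.a', cen]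
    rw [v0, v1, v2, v4]
    simp only [if_true]
    ring
  · simp only [gG3, Gt.u, Gt.u', Gt.a]
    rw [v0, v1, v2]
    obtain ⟨-, -, -, -, -, -, -, -, f, -⟩ := wc_tf H hl hi hi (z := tbs K L l i) (by omega)
    exact f.trans_le (le_abs_self _)

theorem wc_gG1 (H : wc_H K L Q al be B η) {l i : ℕ} (hl : l < L) (hi : i < 5) :
    wc_G (gG1 K L (Q.getD l []) l i) (wc_v K L Q al be B) := by
  obtain ⟨v0, v1, v2, v3, v4⟩ := wc_tv K L Q al be B hl hi
  have ht := wc_tbs (K := K) hl hi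
  obtain ⟨hk, hj⟩ := H.hQ l i hl hi
  have m2 := wc_v2 K L Q al be B hj
  have m3 := wc_v3 K L Q al be B hj
  constructor
  · simp only [gG1, Gt.k, Gt.u, Gt.u', Gt.a, Gt.a', cen]
    rw [v0, v1, m2, m3]
    simp only [Bool.false_eq_true, if_false]
    ring
  · simp only [gG1, Gt.u, Gt.u', Gt.a]
    rw [v0, m2, m3]
    obtain ⟨-, -, -, -, -, -, -, -, -, -, -, f⟩ := wc_mf H hj hk
      (z := 2 * K + 2 * js (Q.getD l []) i) (by omega)
    have := H.st (2 * K + 2 * js (Q.getD l []) i) (tbs K L l i) (by omega)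
    have h0 := H.h0
    have h5 := le_abs_self (B (tbs K L l i) - B (2 * K + 2 * js (Q.getD l []) i))
    linarith

theorem wc_gG2 (H : wc_H K L Q al be B η) {l i : ℕ} (hl : l < L) (hi : i < 5) :
    wc_G (gG2 K L (Q.getD l []) l i) (wc_v K L Q al be B) := by
  obtain ⟨v0, v1, v2, v3, v4⟩ := wc_tv K L Q al be B hl hi
  have ht := wc_tbs (K := K) hl hi
  obtain ⟨hk, hj⟩ := H.hQ l i hl hi
  have m2 := wc_v2 K L Q al be B hj
  have m3 := wc_v3 K L Q al be B hj
  constructor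
  · simp only [gG2, Gt.k, Gt.u, Gt.u', Gt.a, Gt.a', cen]
    rw [v2, v3, m2, m3]
    simp only [Bool.false_eq_true, if_false]
    ring
  · simp only [gG2, Gt.u, Gt.u', Gt.a]
    have h6 := wc_lt' H (z := tbs K L l i) (z' := tbs K L l i + 2) (by omega) (by omega)
    rw [v0] at h6
    rw [m2, m3]
    obtain ⟨-, -, -, -, -, -, -, -, -, -, -, f⟩ := wc_mf H hj hk
      (z := 2 * K + 2 * js (Q.getD l []) i) (by omega)
    have := H.st (2 * K + 2 * js (Q.getD l []) i) (tbs K L l i) (by omega)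
    have h0 := H.h0
    have h5 := le_abs_self (wc_v K L Q al be B (tbs K L l i + 2) -
      B (2 * K + 2 * js (Q.getD l []) i))
    linarith

theorem wc_gC (H : wc_H K L Q al be B η) {l i : ℕ} (hl : l < L) (hi : i < 6) :
    wc_G (gC K L l i) (wc_v K L Q al be B) := by
  obtain ⟨p0, p1, p2, p3, p4, p5, p6, p7⟩ := wc_pv K L Q al be B l _ rfl
  have h0 := H.h0
  have hpb : pbs K L l + 7 < 4 * K + 33 * L := by
    unfold pbs
    omega
  -- gap of the first five gates
  have gap : ∀ i r, i < 5 → r < 8 → 1000 * (wc_v K L Q al be B (tbs K L l i + 4) -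
      wc_v K L Q al be B (tbs K L l i + 3)) <
      |wc_v K L Q al be B (pbs K L l + r) - wc_v K L Q al be B (tbs K L l i + 3)| := by
    intro i r hi hr
    obtain ⟨v0, v1, v2, v3, v4⟩ := wc_tv K L Q al be B hl hi
    have ht := wc_tbs (K := K) hl hi
    have htp : tbs K L l i < pbs K L l := by
      unfold pbs
      omega
    obtain ⟨-, -, -, f4, f5, -, -, -, -, f, -⟩ := wc_tf H hl hi hi (z := tbs K L l i) (by omega)
    rw [← v3, ← v4] at f f4
    rw [← v4] at f5
    have h1 := H.st _ _ htp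
    have h2 : B (pbs K L l) ≤ wc_v K L Q al be B (pbs K L l + r) := by
      rcases Nat.eq_zero_or_pos r with rfl | hr0
      · rw [add_zero, p0]
      · rw [← p0]
        exact (wc_lt' H (by omega) (by omega)).le
    have h5 := le_abs_self (wc_v K L Q al be B (pbs K L l + r) -
      wc_v K L Q al be B (tbs K L l i + 3))
    linarith
  have eqn : ∀ i, i < 5 → wc_v K L Q al be B (tbs K L l i + 4) =
      wc_v K L Q al be B (tbs K L l i + 3) *
        wc_S (al (ks (Q.getD l []) i)) (be (js (Q.getD l []) i)) (B (tbs K L l i)) := by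
    intro i hi
    obtain ⟨v0, v1, v2, v3, v4⟩ := wc_tv K L Q al be B hl hi
    have ht := wc_tbs (K := K) hl hi
    obtain ⟨-, -, -, -, -, f, -⟩ := wc_tf H hl hi hi (z := tbs K L l i) (by omega)
    rw [v3, v4]
    exact f
  have hi' : i = 0 ∨ i = 1 ∨ i = 2 ∨ i = 3 ∨ i = 4 ∨ i = 5 := by omega
  rcases hi' with rfl | rfl | rfl | rfl | rfl | rfl
  · constructor
    · simp only [gC, Gt.k, Gt.u, Gt.u', Gt.a, Gt.a', cen]
      norm_num
      rw [eqn 0 (by norm_num), p1, p0]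
      ring
    · simpa [gC, Gt.u, Gt.u', Gt.a] using gap 0 0 (by norm_num) (by norm_num)
  · constructor
    · simp only [gC, Gt.k, Gt.u, Gt.u', Gt.a, Gt.a', cen]
      norm_num
      rw [eqn 1 (by norm_num), p1, p2]
      ring
    · simpa [gC, Gt.u, Gt.u', Gt.a] using gap 1 1 (by norm_num) (by norm_num)
  · constructor
    · simp only [gC, Gt.k, Gt.u, Gt.u', Gt.a, Gt.a', cen]
      norm_num
      rw [eqn 2 (by norm_num), p2, p3]
      ring
    · simpa [gC, Gt.u, Gt.u', Gt.a] using gap 2 2 (by norm_num) (by norm_num)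
  · constructor
    · simp only [gC, Gt.k, Gt.u, Gt.u', Gt.a, Gt.a', cen]
      norm_num
      rw [eqn 3 (by norm_num), p5, p6]
      ring
    · simpa [gC, Gt.u, Gt.u', Gt.a] using gap 3 5 (by norm_num) (by norm_num)
  · constructor
    · simp only [gC, Gt.k, Gt.u, Gt.u', Gt.a, Gt.a', cen]
      norm_num
      rw [eqn 4 (by norm_num), p6, p7]
      ring
    · simpa [gC, Gt.u, Gt.u', Gt.a] using gap 4 6 (by norm_num) (by norm_num)
  · obtain ⟨-, -, -, -, -, -, -, -, f⟩ :=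
      wc_sf H (z := pbs K L l) (z' := pbs K L l + 5) hl (by omega) (by omega)
    constructor
    · simp only [gC, Gt.k, Gt.u, Gt.u', Gt.a, Gt.a', cen]
      norm_num
      rw [p4, p5, p7, p0]
      ring
    · simp only [gC, Gt.u, Gt.u', Gt.a]
      norm_num
      rw [p5, p7, p0]
      have h1 := H.st (pbs K L l) (pbs K L l + 5) (by omega)
      have h5 := neg_abs_le (B (pbs K L l) - B (pbs K L l + 5))
      linarith

end

/-- the property of `δ` for one inequality -/
def wc_PD (a : ℕ → ℝ) (δ : ℝ) : Prop := ∀ t s₀ s₁ s₂ s₃ s₄ : ℝ, 0 < t → t < δ →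
    (∀ s ∈ [s₀, s₁, s₂, s₃, s₄], 2 < s ∧ s < 2 + δ) →
    (1 + t * a 0 / s₀) * (1 + t * a 1 / s₁) * (1 + t * a 2 / s₂) <
      (1 + t * a 3 / s₃) * (1 + t * a 4 / s₄)

theorem wc_delta (hWN : ST_WN) {x y : ℕ → ℝ} (hx : ∀ i, 0 < x i) (hy : ∀ i, 0 < y i)
    (Q : List (List (ℕ × ℕ))) (h : ∀ q ∈ Q, pp x y q 0 + pp x y q 1 + pp x y q 2 <
      pp x y q 3 + pp x y q 4) :
    ∃ δ : ℝ, 0 < δ ∧ δ ≤ 1 / 100 ∧ ∀ q ∈ Q, wc_PD (pp x y q) δ := by
  induction Q with
  | nil => exact ⟨1 / 100, by norm_num, le_rfl, fun q hq => absurd hq List.not_mem_nil⟩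
  | cons q Q ih =>
    obtain ⟨δ, h0, h1, h2⟩ := ih fun q' hq' => h q' (List.mem_cons_of_mem _ hq')
    have hp : ∀ i, 0 < pp x y q i := fun i => mul_pos (hx _) (hy _)
    obtain ⟨δ', h3, h4⟩ := hWN _ _ _ _ _ (hp 0) (hp 1) (hp 2) (hp 3) (hp 4)
      (h q List.mem_cons_self)
    have hmono : ∀ (a : ℕ → ℝ) (d d' : ℝ), d ≤ d' → wc_PD a d' → wc_PD a d := by
      intro a d d' hd hP t s₀ s₁ s₂ s₃ s₄ ht htd hs
      exact hP t s₀ s₁ s₂ s₃ s₄ ht (by linarith) fun s hs' =>
        ⟨(hs s hs').1, by linarith [(hs s hs').2]⟩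
    refine ⟨min δ δ', lt_min h0 h3, (min_le_left _ _).trans h1, fun q' hq' => ?_⟩
    rcases List.mem_cons.1 hq' with rfl | hq'
    · exact hmono _ _ _ (min_le_right _ _) h4
    · exact hmono _ _ _ (min_le_left _ _) (h2 q' hq')

theorem wc_upper (x : ℕ → ℝ) (K : ℕ) : ∃ X : ℝ, 1 ≤ X ∧ ∀ k, k < K → x k ≤ X := by
  induction K with
  | zero => exact ⟨1, le_rfl, fun k hk => absurd hk (Nat.not_lt_zero k)⟩
  | succ K ih =>
    obtain ⟨X, h1, h2⟩ := ih
    refine ⟨max X (x K), h1.trans (le_max_left _ _), fun k hk => ?_⟩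
    rcases Nat.lt_succ_iff_lt_or_eq.1 hk with h | rfl
    · exact (h2 k h).trans (le_max_left _ _)
    · exact le_max_right _ _

theorem wc_lower {x : ℕ → ℝ} (hx : ∀ i, 0 < x i) (K : ℕ) :
    ∃ μ : ℝ, 0 < μ ∧ μ ≤ 1 ∧ ∀ k, k < K → μ ≤ x k := by
  induction K with
  | zero => exact ⟨1, one_pos, le_rfl, fun k hk => absurd hk (Nat.not_lt_zero k)⟩
  | succ K ih =>
    obtain ⟨μ, h0, h1, h2⟩ := ih
    refine ⟨min μ (x K), lt_min h0 (hx K), (min_le_left _ _).trans h1, fun k hk => ?_⟩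
    rcases Nat.lt_succ_iff_lt_or_eq.1 hk with h | rfl
    · exact (min_le_left _ _).trans (h2 k h)
    · exact min_le_right _ _

theorem wc_mem {Q : List (List (ℕ × ℕ))} {l : ℕ} (hl : l < Q.length) : Q.getD l [] ∈ Q := by
  rw [List.getD_eq_getElem _ _ hl]
  exact List.getElem_mem hl

theorem wc_idx {K : ℕ} {Q : List (List (ℕ × ℕ))} (h : BV K Q) {l i : ℕ} (hl : l < Q.length)
    (hi : i < 5) : ks (Q.getD l []) i < K ∧ js (Q.getD l []) i < K := by
  obtain ⟨h1, h2⟩ := h _ (wc_mem hl)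
  have h3 : i < (Q.getD l []).length := by omega
  have h4 : (Q.getD l []).getD i (0, 0) ∈ Q.getD l [] := by
    rw [List.getD_eq_getElem _ _ h3]
    exact List.getElem_mem h3
  exact h2 _ h4

theorem st_WC (hWMEM : ST_WMEM) (hWN : ST_WN) : ST_WC := by
  intro K Q hBV hSat
  obtain ⟨x, y, hx, hy, hxy⟩ := hSat
  set L := Q.length with hL
  obtain ⟨δ, hδ0, hδ1, hδ⟩ := wc_delta hWN hx hy Q hxy
  obtain ⟨X1, hX1, hX1'⟩ := wc_upper x K
  obtain ⟨X2, hX2, hX2'⟩ := wc_upper y K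
  obtain ⟨μ, hμ0, hμ1, hμ⟩ := wc_lower hx K
  set n : ℝ := ((4 * K + 33 * L : ℕ) : ℝ) + 1 with hn
  have hn1 : 1 ≤ n := by
    rw [hn]
    have : (0 : ℝ) ≤ ((4 * K + 33 * L : ℕ) : ℝ) := Nat.cast_nonneg _
    linarith
  have hn0 : 0 < n := by linarith
  set η : ℝ := δ / (2 * n) with hη
  have hη0 : 0 < η := by positivity
  have hηn : 2 * η * n = δ := by
    rw [hη]
    field_simp
  have hηδ : 2 * η ≤ δ := by nlinarith
  set B : ℕ → ℝ := fun z => 2 + 2 * η * ((z : ℝ) + 1) with hBdef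
  set εa : ℝ := η / 10000 / X1 with hεa
  set εb : ℝ := εa * μ / 10000 / X2 with hεb
  have hεa0 : 0 < εa := by positivity
  have hεb0 : 0 < εb := by positivity
  have hεaX : εa * X1 = η / 10000 := by
    rw [hεa]
    field_simp
  have hεbX : εb * X2 = εa * μ / 10000 := by
    rw [hεb]
    field_simp
  have hBst : ∀ z z' : ℕ, z < z' → B z + 2 * η ≤ B z' := by
    intro z z' h
    have h1 : (z : ℝ) + 1 ≤ z' := by exact_mod_cast h
    simp only [hBdef]
    nlinarith
  have hBB : ∀ z : ℕ, z < 4 * K + 33 * L → 2 < B z ∧ B z + η < 2 + 1 / 100 ∧ B z + η < 2 + δ := by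
    intro z hz
    have h1 : (z : ℝ) + 1 ≤ ((4 * K + 33 * L : ℕ) : ℝ) := by exact_mod_cast hz
    have h2 : (0 : ℝ) ≤ (z : ℝ) := Nat.cast_nonneg z
    have h3 : 2 * η * ((z : ℝ) + 1) ≤ 2 * η * (n - 1) := by
      have : (z : ℝ) + 1 ≤ n - 1 := by
        rw [hn]
        linarith
      gcongr
    have h4 : 0 < 2 * η * ((z : ℝ) + 1) := by positivity
    simp only [hBdef]
    refine ⟨by linarith, ?_, ?_⟩ <;> nlinarith
  have hal : ∀ k, k < K → 0 < εa * x k ∧ εa * x k ≤ η / 10000 := by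
    intro k hk
    refine ⟨mul_pos hεa0 (hx k), ?_⟩
    rw [← hεaX]
    have := hX1' k hk
    gcongr
  have hbe : ∀ j k, j < K → k < K → 0 < εb * y j ∧ εb * y j ≤ εa * x k / 10000 := by
    intro j k hj hk
    refine ⟨mul_pos hεb0 (hy j), ?_⟩
    have h1 : εb * y j ≤ εb * X2 := by
      have := hX2' j hj
      gcongr
    have h2 : εa * μ ≤ εa * x k := by
      have := hμ k hk
      gcongr
    rw [hεbX] at h1
    linarith
  have ht0 : 0 < εa * εb := mul_pos hεa0 hεb0
  have htδ : εa * εb < δ := by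
    have h1 : εa * 1 ≤ εa * X1 := by gcongr
    have h2 : εb * 1 ≤ εb * X2 := by gcongr
    have h3 : εa ≤ η / 10000 := by linarith
    have h4 : εa * μ ≤ 1 * 1 := by
      have : εa ≤ 1 := by linarith
      gcongr
    have h5 : εb ≤ 1 := by linarith
    have h6 : εa * εb ≤ εa * 1 := by gcongr
    linarith
  have H : wc_H K L Q (fun k => εa * x k) (fun j => εb * y j) B η := by
    refine ⟨hη0, by linarith, fun z hz => ⟨(hBB z hz).1, (hBB z hz).2.1⟩, hBst, hal, hbe,
      fun l i hl hi => wc_idx hBV hl hi, fun l hl => ?_⟩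
    have hs : ∀ i, i < 5 → 2 < 1 + (B (tbs K L l i) - 1) * (1 + εa * x (ks (Q.getD l []) i)) ∧
        1 + (B (tbs K L l i) - 1) * (1 + εa * x (ks (Q.getD l []) i)) < 2 + δ := by
      intro i hi
      obtain ⟨hk, hj⟩ := wc_idx hBV hl hi
      have ht := wc_tbs (K := K) hl hi
      have hb := hBB (tbs K L l i) (by omega)
      obtain ⟨f1, f2, f3, f4, f5, -⟩ := wc_term hη0 (by linarith : η ≤ 1 / 100) hb.1
        (by linarith [hb.2.1]) (hal _ hk).1 (hal _ hk).2 (hbe _ _ hj hk).1 (hbe _ _ hj hk).2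
      constructor <;> linarith [hb.1, hb.2.2]
    have key := hδ _ (wc_mem hl) (εa * εb) _ _ _ _ _ ht0 htδ (by
      intro s hs'
      simp only [List.mem_cons, List.not_mem_nil, or_false] at hs'
      rcases hs' with rfl | rfl | rfl | rfl | rfl
      · exact hs 0 (by norm_num)
      · exact hs 1 (by norm_num)
      · exact hs 2 (by norm_num)
      · exact hs 3 (by norm_num)
      · exact hs 4 (by norm_num))
    have e : ∀ i, wc_S (εa * x (ks (Q.getD l []) i)) (εb * y (js (Q.getD l []) i))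
        (B (tbs K L l i)) = 1 + εa * εb * pp x y (Q.getD l []) i /
        (1 + (B (tbs K L l i) - 1) * (1 + εa * x (ks (Q.getD l []) i))) := by
      intro i
      unfold wc_S pp
      ring
    simp only [e]
    exact key
  refine ⟨wc_v K L Q (fun k => εa * x k) (fun j => εb * y j) B, ?_⟩
  have hG : ∀ g ∈ wiring K Q, wc_G g (wc_v K L Q (fun k => εa * x k) (fun j => εb * y j) B) := by
    intro g hg
    obtain ⟨l, hl, h⟩ := ((hWMEM K Q).2.2.2 g).1 hg
    rcases h with ⟨i, hi, rfl | rfl | rfl | rfl⟩ | ⟨i, hi, rfl⟩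
    · exact wc_gH H hl hi
    · exact wc_gG3 H hl hi
    · exact wc_gG1 H hl hi
    · exact wc_gG2 H hl hi
    · exact wc_gC H hl hi
  refine ⟨fun g hg => (hG g hg).1, fun z hz => ?_, fun z z' hzz hz' => ?_,
    fun g hg => (hG g hg).2⟩
  · have hz' : z < 4 * K + 33 * L := hz
    have h1 := wc_bd H hz'
    have h2 := hBB z hz'
    exact ⟨h1.1, by linarith [h1.2, h2.2.1]⟩
  · exact wc_lt' H hzz hz'

end

end Pool.Agent.Helper54.SP
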